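import Pool.Agent.helper48.SG.SpecH

set_option autoImplicit false

open MeasureTheory Set Metric Filter Topology
open scoped ENNReal NNReal ComplexConjugate

namespace Pool.Agent.SG

theorem H10_bounds (h1 : H01_stmt) (h2 : H02_stmt) (b3 : B03_stmt) (Γ : Type) [Group Γ]
    (A : DiscRep Γ) (W : Walk Γ) (ν : Measure ℂ) (C : ℝ) (hC : Comp A W ν C) (u : ℂ) (c s : ℝ)
    (E : Set ℂ) (hu : ‖u‖ = 1) (hc : 0 < c) (hs : 8 * s ≤ c) (hE : MeasurableSet E)
    (hEf : E ⊆ far u c) (hfin : sg u E ≠ ⊤) (x : Γ) (hx : A.Hu u x ≤ s) :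
    A.kk x / 2 * (sg u E).toReal ≤ C * (nux A ν x).real E ∧
      (nux A ν x).real E ≤ C * (2 * A.kk x * (sg u E).toReal) := by
  obtain ⟨-, -, -, -, hup, hlo, hpn, hpl⟩ := h1 Γ A W ν C hC
  have hC0 : 0 ≤ C := le_trans zero_le_one hC.one
  have hk : 0 < A.kk x := ((b3 Γ A).1 x).1
  obtain ⟨-, -, hA, hB, -, -⟩ := h2 Γ A u c s x E hu hc hs hx hE hEf
  have i1 : IsProbabilityMeasure (nux A ν x) := hpn x
  have hn : nux A ν x E ≠ ⊤ := measure_ne_top _ _
  constructor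
  · have h3 : ENNReal.ofReal (A.kk x / 2) * sg u E ≤ ENNReal.ofReal C * nux A ν x E :=
      hB.trans (hlo x E hE)
    have h4 := ENNReal.toReal_mono (ENNReal.mul_ne_top ENNReal.ofReal_ne_top hn) h3
    rw [ENNReal.toReal_mul, ENNReal.toReal_mul, ENNReal.toReal_ofReal (by linarith),
      ENNReal.toReal_ofReal hC0] at h4
    exact h4
  · have h3 : nux A ν x E ≤ ENNReal.ofReal C * (ENNReal.ofReal (2 * A.kk x) * sg u E) :=
      (hup x E hE).trans (by gcongr)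
    have h5 : ENNReal.ofReal C * (ENNReal.ofReal (2 * A.kk x) * sg u E) ≠ ⊤ :=
      ENNReal.mul_ne_top ENNReal.ofReal_ne_top (ENNReal.mul_ne_top ENNReal.ofReal_ne_top hfin)
    have h4 := ENNReal.toReal_mono h5 h3
    rw [ENNReal.toReal_mul, ENNReal.toReal_mul, ENNReal.toReal_ofReal hC0,
      ENNReal.toReal_ofReal (by linarith)] at h4
    exact h4

theorem H10 (h1 : H01_stmt) (h2 : H02_stmt) (b3 : B03_stmt) (b5 : B05_stmt) : H10_stmt := by
  intro Γ _ A W ν C hC u c s E E' hu hc hs hE hE' hEf hEf' hl hl'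
  by_cases hex : ∃ x₀, A.Hu u x₀ ≤ s
  swap
  · exact ⟨1, one_pos, fun x hx => absurd ⟨x, hx⟩ hex⟩
  obtain ⟨x₀, hx₀⟩ := hex
  have hlp : IsProbabilityMeasure lam := b5.1
  have key : ∀ F : Set ℂ, MeasurableSet F → F ⊆ far u c → lam F ≠ 0 →
      sg u F ≠ ⊤ ∧ 0 < (sg u F).toReal := by
    intro F hF hFf hFl
    obtain ⟨-, -, -, -, hA, hB⟩ := h2 Γ A u c s x₀ F hu hc hs hx₀ hF hFf
    have h3 : sg u F ≠ ⊤ :=
      ne_top_of_le_ne_top (ENNReal.mul_ne_top ENNReal.ofReal_ne_top (measure_ne_top _ _)) hA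
    refine ⟨h3, ENNReal.toReal_pos ?_ h3⟩
    intro h0
    rw [h0, nonpos_iff_eq_zero, mul_eq_zero] at hB
    rcases hB with hB | hB
    · rw [ENNReal.ofReal_eq_zero] at hB
      norm_num at hB
    · exact hFl hB
  obtain ⟨hS, hS0⟩ := key E hE hEf hl
  obtain ⟨hS', hS0'⟩ := key E' hE' hEf' hl'
  have hC1 : 1 ≤ C := hC.one
  have hC0 : 0 < C := by linarith
  set S := (sg u E).toReal with hSd
  set S' := (sg u E').toReal with hSd'
  refine ⟨S / (4 * C ^ 2 * S'), by positivity, ?_⟩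
  intro x hx
  obtain ⟨hA, hB⟩ := H10_bounds h1 h2 b3 Γ A W ν C hC u c s E hu hc hs hE hEf hS x hx
  obtain ⟨hA', hB'⟩ := H10_bounds h1 h2 b3 Γ A W ν C hC u c s E' hu hc hs hE' hEf' hS' x hx
  rw [← hSd] at hA hB
  rw [← hSd'] at hA' hB'
  have hk : 0 < A.kk x := ((b3 Γ A).1 x).1
  constructor
  · have h3 : S / (4 * C ^ 2 * S') * (nux A ν x).real E' ≤
        S / (4 * C ^ 2 * S') * (C * (2 * A.kk x * S')) := by gcongr
    have h4 : S / (4 * C ^ 2 * S') * (C * (2 * A.kk x * S')) = A.kk x / 2 * S / C := by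
      field_simp
      ring
    have h5 : A.kk x / 2 * S / C ≤ (nux A ν x).real E := by
      rw [div_le_iff₀ hC0]
      linarith
    linarith
  · have h3 : A.kk x / 2 * S' / C ≤ (nux A ν x).real E' := by
      rw [div_le_iff₀ hC0]
      linarith
    have h4 : 16 * C ^ 4 * (S / (4 * C ^ 2 * S')) * (A.kk x / 2 * S' / C) =
        C * (2 * A.kk x * S) := by
      field_simp
      ring
    have h5 : 16 * C ^ 4 * (S / (4 * C ^ 2 * S')) * (A.kk x / 2 * S' / C) ≤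
        16 * C ^ 4 * (S / (4 * C ^ 2 * S')) * (nux A ν x).real E' := by gcongr
    linarith

end Pool.Agent.SG
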