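import Pool.Agent.helper17.SG.SpecB

set_option autoImplicit false

open MeasureTheory Set Metric Filter Topology
open scoped ENNReal NNReal ComplexConjugate

namespace Pool.Agent.SG

theorem B17 : B17_stmt := by
  intro m ν hm hν C hC hac hball E hE
  have h1 := Besicovitch.ae_tendsto_rnDeriv ν m
  have h2 : ∀ᵐ ζ ∂m, ν.rnDeriv m ζ ≤ C := by
    filter_upwards [h1, hball] with ζ hζ hb
    by_contra hlt
    have hlt : C < ν.rnDeriv m ζ := not_le.mp hlt
    have h3 := hζ.eventually (lt_mem_nhds hlt)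
    rw [eventually_nhdsWithin_iff, Metric.eventually_nhds_iff] at h3
    obtain ⟨ε, hε, h4⟩ := h3
    obtain ⟨r, hr0, hrε, hr⟩ := hb ε hε
    have h5 := h4 (y := r) (by rw [Real.dist_eq, sub_zero, abs_of_pos hr0]; exact hrε) hr0
    exact absurd (ENNReal.div_le_of_le_mul hr) (not_le.mpr h5)
  calc ν E = (m.withDensity (ν.rnDeriv m)) E := by rw [Measure.withDensity_rnDeriv_eq ν m hac]
    _ = ∫⁻ ζ in E, ν.rnDeriv m ζ ∂m := withDensity_apply _ hE
    _ ≤ ∫⁻ _ in E, C ∂m := lintegral_mono_ae (ae_restrict_of_ae h2)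
    _ = C * m E := by rw [setLIntegral_const]

end Pool.Agent.SG
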