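import Pool.Agent.helper80.SG.Spec

set_option autoImplicit false

namespace Pool.Agent.SG

open MvPolynomial Module Pool.Agent.SV

theorem DMC : DMC_stmt := by
  intro ι κ _ _ _ _ c T d r
  have hcut : ∀ x : ι → ℂ, cut Finset.univ x = x := by
    intro x; funext i; simp [cut]
  have hpt : ∀ P : (ι → ℂ) × (ι → ℂ), ptc c T 0 P = P.1 := by
    intro P; funext i; simp [ptc]
  have key : ∀ (x : Fin r → (ι → ℂ) × (ι → ℂ)) (y : Fin 0 → (ι → ℂ) × (ι → ℂ))
      (y' : Fin 0 → (ι → ℂ)),
      Ker (PhiC c T d) x y = Ker (Phi1 c Finset.univ d) y' (fun i => (x i).1) := by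
    intro x y y'
    ext v
    rw [mem_Ker, mem_Ker]
    constructor
    · rintro ⟨h1, _⟩
      refine ⟨fun i => i.elim0, fun i => ?_⟩
      funext j
      have h2 := congrFun (h1 i) ((0 : Fin 3), j)
      rw [PhiC_apply, hpt] at h2
      simpa [Phi1, hcut, gradL_apply] using h2
    · rintro ⟨_, h1⟩
      refine ⟨fun i => ?_, fun i => i.elim0⟩
      funext aj
      obtain ⟨a, j⟩ := aj
      have h2 := congrFun (h1 i) j
      simp [Phi1, hcut, gradL_apply] at h2
      rw [PhiC_apply]
      by_cases ha : a = 0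
      · subst ha
        rw [hpt]
        simpa using h2
      · simp [ha]
  unfold dmin
  congr 1
  ext k
  constructor
  · rintro ⟨x, y, h⟩
    refine ⟨fun i => i.elim0, fun i => (x i).1, ?_⟩
    rw [← key x y]; exact h
  · rintro ⟨y, x, h⟩
    refine ⟨fun i => (x i, 0), fun i => i.elim0, ?_⟩
    rw [key (fun i => (x i, 0)) (fun i => i.elim0) y]; exact h

end Pool.Agent.SG
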