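import Pool.Agent.helper68.SG.SpecF

set_option autoImplicit false

open MeasureTheory Set Metric Filter Topology
open scoped ENNReal NNReal ComplexConjugate commutatorElement

namespace Pool.Agent.SG

theorem F04 : F04_stmt := by
  intro ν B δ hB h0 hdim
  have hm : Measurable (Subtype.val : CDisc → ℂ) := measurable_subtype_coe
  have h1 : ν (Subtype.val ⁻¹' B)ᶜ = 0 := by
    rw [Measure.map_apply hm hB.compl] at h0
    exact h0
  have h2 : dimH (Subtype.val ⁻¹' B : Set CDisc) ≤ δ := by
    have h3 : dimH ((Subtype.val : CDisc → ℂ) '' (Subtype.val ⁻¹' B)) =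
        dimH (Subtype.val ⁻¹' B : Set CDisc) := isometry_subtype_coe.dimH_image _
    rw [← h3]
    exact (dimH_mono (image_preimage_subset _ _)).trans hdim
  unfold measureDim
  exact iInf_le_of_le _ (iInf_le_of_le (hm hB) (iInf_le_of_le h1 h2))

end Pool.Agent.SG
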