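import Pool.Agent.helper56.SG.SpecG

set_option autoImplicit false

open MeasureTheory Set Metric Filter Topology
open scoped ENNReal NNReal ComplexConjugate
open Pool.Agent.SG

noncomputable section

namespace Pool.Agent.SGG

theorem KCM_zero {t : ℝ} {x y : ℂ} (h : ¬ t < pp x y) : ker t x y = 0 := by
  unfold ker
  exact max_eq_left (by linarith [not_lt.mp h])

theorem KCM_ae (hHYC : HYC_stmt) : ∀ᵐ z ∂hyp, z ∈ ball (0 : ℂ) 1 := by
  rw [ae_iff]
  exact hHYC.1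

theorem KCM_form (hPPF : PPF_stmt) (hKNB : KNB_stmt) (hFUB : FUB_stmt)
    (s t : ℝ) (hs : 0 < s) (hs1 : s < 1) (ht : 0 < t) (u : ℂ → ℝ) (hu : CB u)
    (x : ℂ) (hx : x ∈ ball (0 : ℂ) 1) :
    KK s (KK t u) x = (NN s)⁻¹ * (NN t)⁻¹ *
      ∫ y, (∫ z, ker s x z * ker t z y ∂hyp) * u y ∂hyp := by
  obtain ⟨-, -, -, hcont, hsup⟩ := hPPF
  have hxn : ‖x‖ < 1 := mem_ball_zero_iff.mp hx
  obtain ⟨σ₁, h10, h11, hσ₁⟩ := hsup s ‖x‖ hs (norm_nonneg x) hxn
  obtain ⟨σ₂, h20, h21, hσ₂⟩ := hsup t σ₁ ht h10 h11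
  have hG : ContinuousOn (fun q : ℂ × ℂ => (fun z y => ker s x z * (ker t z y * u y)) q.1 q.2)
      (ball (0 : ℂ) 1 ×ˢ ball (0 : ℂ) 1) := by
    have h1 : ContinuousOn (fun q : ℂ × ℂ => ker s x q.1) (ball (0 : ℂ) 1 ×ˢ ball (0 : ℂ) 1) := by
      have h2 : CB (ker s x) := ((hKNB s hs hs1).2 x hx).1
      exact h2.comp continuousOn_fst (fun q hq => hq.1)
    have h3 : ContinuousOn (fun q : ℂ × ℂ => ker t q.1 q.2)
        (ball (0 : ℂ) 1 ×ˢ ball (0 : ℂ) 1) := by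
      have h4 := hcont.sub (continuousOn_const (c := t))
      exact ContinuousOn.sup (continuousOn_const (c := (0 : ℝ))) h4
    have h5 : ContinuousOn (fun q : ℂ × ℂ => u q.2) (ball (0 : ℂ) 1 ×ˢ ball (0 : ℂ) 1) :=
      ContinuousOn.comp (g := u) (t := ball (0 : ℂ) 1) hu continuousOn_snd (fun q hq => hq.2)
    exact h1.mul (h3.mul h5)
  have hvan : ∀ z ∈ ball (0 : ℂ) 1, ∀ y ∈ ball (0 : ℂ) 1, max σ₁ σ₂ < ‖z‖ ∨ max σ₁ σ₂ < ‖y‖ →
      (fun z y => ker s x z * (ker t z y * u y)) z y = 0 := by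
    intro z hz y hy h
    have hz1 : ‖z‖ < 1 := mem_ball_zero_iff.mp hz
    have hy1 : ‖y‖ < 1 := mem_ball_zero_iff.mp hy
    beta_reduce
    by_cases hzσ : ‖z‖ ≤ σ₁
    · have hy2 : σ₂ < ‖y‖ := by
        rcases h with h | h
        · exact absurd hzσ (not_le.mpr (lt_of_le_of_lt (le_max_left _ _) h))
        · exact lt_of_le_of_lt (le_max_right _ _) h
      have h6 : ker t z y = 0 := KCM_zero fun h7 => absurd (hσ₂ z y hzσ hy1 h7) (not_le.mpr hy2)
      rw [h6, zero_mul, mul_zero]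
    · have h6 : ker s x z = 0 := KCM_zero fun h7 => hzσ (hσ₁ x z le_rfl hz1 h7)
      rw [h6, zero_mul]
  have hF := hFUB (fun z y => ker s x z * (ker t z y * u y)) (max σ₁ σ₂) (max_lt h11 h21) hG hvan
  calc KK s (KK t u) x
      = (NN s)⁻¹ * ∫ z, ker s x z * ((NN t)⁻¹ * ∫ y, ker t z y * u y ∂hyp) ∂hyp := rfl
    _ = (NN s)⁻¹ * ∫ z, (NN t)⁻¹ * ∫ y, ker s x z * (ker t z y * u y) ∂hyp ∂hyp := by
        congr 1
        refine integral_congr_ae (Filter.Eventually.of_forall fun z => ?_)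
        beta_reduce
        rw [integral_const_mul]
        ring
    _ = (NN s)⁻¹ * (NN t)⁻¹ * ∫ z, ∫ y, ker s x z * (ker t z y * u y) ∂hyp ∂hyp := by
        rw [integral_const_mul, mul_assoc]
    _ = (NN s)⁻¹ * (NN t)⁻¹ * ∫ y, ∫ z, ker s x z * (ker t z y * u y) ∂hyp ∂hyp := by
        rw [hF]
    _ = (NN s)⁻¹ * (NN t)⁻¹ * ∫ y, (∫ z, ker s x z * ker t z y ∂hyp) * u y ∂hyp := by
        congr 1
        refine integral_congr_ae (Filter.Eventually.of_forall fun y => ?_)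
        beta_reduce
        rw [← integral_mul_const]
        refine integral_congr_ae (Filter.Eventually.of_forall fun z => ?_)
        beta_reduce
        ring

theorem KCM (hMOB : MOB_stmt) (hSWP : SWP_stmt) (hPPF : PPF_stmt) (hHYC : HYC_stmt)
    (hCHV : CHV_stmt) (hKNB : KNB_stmt) (hFUB : FUB_stmt) : KCM_stmt := by
  intro s t hs hs1 ht ht1 u hu x hx
  rw [KCM_form hPPF hKNB hFUB s t hs hs1 ht u hu x hx,
    KCM_form hPPF hKNB hFUB t s ht ht1 hs u hu x hx]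
  rw [mul_comm (NN s)⁻¹]
  congr 1
  have hae := KCM_ae hHYC
  refine integral_congr_ae ?_
  filter_upwards [hae] with y hy
  congr 1
  obtain ⟨a, b, hab, hmx, hmy⟩ := hSWP x hx y hy
  obtain ⟨-, -, hmem, -, -, -, -, hpp, -⟩ := hMOB a b hab
  obtain ⟨hP1, -, -, hcont, -⟩ := hPPF
  have hsymm : ∀ r : ℝ, ∀ z ∈ ball (0 : ℂ) 1, ∀ w ∈ ball (0 : ℂ) 1, ker r z w = ker r w z := by
    intro r z hz w hw
    unfold ker
    rw [(hP1 z hz w hw).2.2.1]
  have hg : CB (fun z => ker s x z * ker t z y) := by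
    have h1 : CB (ker s x) := ((hKNB s hs hs1).2 x hx).1
    have h2 : CB (ker t y) := ((hKNB t ht ht1).2 y hy).1
    have h3 : ContinuousOn (fun z => ker t z y) (ball (0 : ℂ) 1) :=
      h2.congr fun z hz => hsymm t z hz y hy
    exact h1.mul h3
  have h4 := hCHV a b hab _ hg
  rw [← h4]
  refine integral_congr_ae ?_
  filter_upwards [hae] with z hz
  have h5 : ker s x (mob a b z) = ker s y z := by
    unfold ker
    have h6 := hpp y hy z hz
    rw [hmy] at h6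
    rw [h6]
  have h7 : ker t (mob a b z) y = ker t z x := by
    unfold ker
    have h6 := hpp z hz x hx
    rw [hmx] at h6
    rw [h6]
  rw [h5, h7, hsymm s y hy z hz, hsymm t z hz x hx, mul_comm]

end Pool.Agent.SGG
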