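import Pool.Agent.helper3.SG.SpecS

set_option autoImplicit false

open MeasureTheory Set Metric Filter Topology
open scoped ENNReal NNReal ComplexConjugate commutatorElement

namespace Pool.Agent.SG

theorem S07_one (h1 : S01_stmt) (Γ : Type) [Group Γ] (A : DiscRep Γ) (z : ℂ) :
    A.act 1 z = z := by
  obtain ⟨-, ⟨ε, hε, ha, hb⟩, -⟩ := h1 Γ A
  unfold DiscRep.act mob
  rw [ha, hb]
  rcases hε with rfl | rfl
  · simp
  · simp

theorem S07_pow (h1 : S01_stmt) (Γ : Type) [Group Γ] (A : DiscRep Γ) (T : Set ℂ) (hT : T.Finite)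
    (hc : T ⊆ circ) (hinv : ∀ γ, ∀ ξ ∈ T, A.act γ ξ ∈ T) (ξ : ℂ) (hξ : ξ ∈ T) (x : Γ) :
    ∃ n : ℕ, 0 < n ∧ A.act (x ^ n) ξ = ξ := by
  have hle : ∀ w ∈ T, ‖w‖ ≤ 1 := by
    intro w hw
    have := hc hw
    unfold circ at this
    rw [mem_sphere_zero_iff_norm] at this
    exact this.le
  have hmul : ∀ γ δ : Γ, ∀ w ∈ T, A.act (γ * δ) w = A.act γ (A.act δ w) :=
    fun γ δ w hw => A.map_mul γ δ w (hle w hw)
  obtain ⟨m, n, hmn, he⟩ : ∃ m n : ℕ, m < n ∧ A.act (x ^ m) ξ = A.act (x ^ n) ξ := by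
    have hmaps : MapsTo (fun n : ℕ => A.act (x ^ n) ξ) univ T := fun n _ => hinv _ ξ hξ
    obtain ⟨m, -, n, -, hne, he⟩ :=
      infinite_univ.exists_ne_map_eq_of_mapsTo hmaps hT
    rcases lt_or_gt_of_ne hne with h | h
    · exact ⟨m, n, h, he⟩
    · exact ⟨n, m, h, he.symm⟩
  refine ⟨n - m, by omega, ?_⟩
  have h2 : x ^ n = x ^ m * x ^ (n - m) := by
    rw [← pow_add]
    congr 1
    omega
  have hw : A.act (x ^ (n - m)) ξ ∈ T := hinv _ ξ hξ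
  rw [h2, hmul _ _ ξ hξ] at he
  have h3 : ∀ w ∈ T, A.act (x ^ m)⁻¹ (A.act (x ^ m) w) = w := by
    intro w hw
    rw [← hmul _ _ w hw, inv_mul_cancel]
    exact S07_one h1 Γ A w
  have h4 := congrArg (A.act (x ^ m)⁻¹) he
  rw [h3 ξ hξ, h3 _ hw] at h4
  exact h4.symm

theorem S07 (h1 : S01_stmt) (h5 : S05_stmt) (h6 : S06_stmt) : S07_stmt := by
  intro Γ _ hTF hNA A hA T hT hne hc hinv
  obtain ⟨x, y, hxy⟩ := hNA
  obtain ⟨ξ, hξ⟩ := hne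
  obtain ⟨m, hm, hxm⟩ := S07_pow h1 Γ A T hT hc hinv ξ hξ x
  obtain ⟨n, hn, hyn⟩ := S07_pow h1 Γ A T hT hc hinv ξ hξ y
  have hx1 : x ≠ 1 := by
    rintro rfl
    exact hxy (Commute.one_left y)
  have hy1 : y ≠ 1 := by
    rintro rfl
    exact hxy (Commute.one_right x)
  have hxm1 : x ^ m ≠ 1 := fun h => hx1 (hTF x m hm h)
  have hyn1 : y ^ n ≠ 1 := fun h => hy1 (hTF y n hn h)
  have hcomm : Commute (x ^ m) (y ^ n) := h5 Γ hTF A hA ξ (hc hξ) _ _ hxm hyn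
  obtain ⟨-, h7⟩ := h6 Γ hTF A hA
  have h8 : Commute x (y ^ n) :=
    h7 x (y ^ n) (x ^ m) hxm1 ((Commute.refl x).pow_right m) hcomm.symm
  exact hxy (h7 x y (y ^ n) hyn1 h8 ((Commute.refl y).pow_right n))

end Pool.Agent.SG
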